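import Mathlib

/-!
# The set-splitting game on an abstract set

The game `G(E)`: the current set starts as `E`; at stage `n` the current set is split into two
disjoint parts, and the other player chooses one of the two parts as the new current set.
Player A splits at even stages and chooses among the two parts at odd stages; player B chooses at
even stages and splits at odd stages.  A wins when no point stays forever.

We show: player A has a winning strategy exactly when `E` is countable.
-/

namespace Pool.Agent.Results.MP_053b7f_lc.SplitGame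

universe u

/-- One stage of a play: the current set has been split into the two parts `left` and `right`,
and `pick` records which of the two has been chosen (`true` for `left`). -/
structure Stage (E : Type u) where
  left : Set E
  right : Set E
  pick : Bool

/-- The part that was chosen at a stage. -/
def Stage.chosen {E : Type u} (s : Stage E) : Set E := if s.pick then s.left else s.right

/-- A finite history: the stages played so far, the most recent one first. -/
abbrev History (E : Type u) := List (Stage E)

/-- The current set after a history: `E` at the start, later the part chosen last. -/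
def current {E : Type u} : History E → Set E
  | [] => Set.univ
  | s :: _ => s.chosen

/-- `L` and `R` are two disjoint sets with union `S`. -/
def IsSplit {E : Type u} (S L R : Set E) : Prop := L ∪ R = S ∧ Disjoint L R

/-- A strategy for player A.  `split h` is the pair of parts into which A splits the current set
after the history `h`; `choose h L R` tells which of the two parts `L`, `R` player A chooses when,
after the history `h`, player B has split the current set into `L` and `R`. -/
structure StrategyA (E : Type u) where
  split : History E → Set E × Set E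
  split_legal : ∀ h, IsSplit (current h) (split h).1 (split h).2
  choose : History E → Set E → Set E → Bool

/-- An infinite sequence of stages. -/
abbrev Run (E : Type u) := ℕ → Stage E

/-- The history consisting of the first `n` stages of a run. -/
def upTo {E : Type u} (f : Run E) : ℕ → History E
  | 0 => []
  | n + 1 => f n :: upTo f n

/-- The set `S_n` of the run: the current set after `n` stages (`S_0 = E`). -/
def setAt {E : Type u} (f : Run E) (n : ℕ) : Set E := current (upTo f n)

/-- A run is a (legal) play of the game when at every stage the current set is split into two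
disjoint parts. -/
def IsPlay {E : Type u} (f : Run E) : Prop :=
  ∀ n, IsSplit (setAt f n) (f n).left (f n).right

/-- Player A follows the strategy `σ` in the run `f`: at even stages A's split is the one given by
`σ`, at odd stages A's choice is the one given by `σ`. -/
def Follows {E : Type u} (σ : StrategyA E) (f : Run E) : Prop :=
  (∀ n, Even n → ((f n).left, (f n).right) = σ.split (upTo f n)) ∧
  (∀ n, Odd n → (f n).pick = σ.choose (upTo f n) (f n).left (f n).right)

/-- Player A wins the run `f`: the sets `S_n`, `n ≥ 1`, have empty intersection. -/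
def WinsA {E : Type u} (f : Run E) : Prop := ⋂ n : ℕ, setAt f (n + 1) = ∅

/-- `σ` is a winning strategy for player A. -/
def StrategyA.Winning {E : Type u} (σ : StrategyA E) : Prop :=
  ∀ f : Run E, IsPlay f → Follows σ f → WinsA f

section lower

variable {E : Type u} (σ : StrategyA E) (F : ℕ → Set E)

/-- Stage created by A's split (after history `h`) and B's choice `b`. -/
def st1 (h : History E) (b : Bool) : Stage E := ⟨(σ.split h).1, (σ.split h).2, b⟩

/-- Stage created by B's split along `F k` and A's choice. -/
def st2 (h : History E) (b : Bool) (k : ℕ) : Stage E :=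
  ⟨(st1 σ h b).chosen ∩ F k, (st1 σ h b).chosen \ F k,
    σ.choose (st1 σ h b :: h) ((st1 σ h b).chosen ∩ F k) ((st1 σ h b).chosen \ F k)⟩

/-- The history obtained when B plays the moves coded by a list. -/
def hist : List (Bool × ℕ) → History E
  | [] => []
  | m :: l => st2 σ F (hist l) m.1 m.2 :: st1 σ (hist l) m.1 :: hist l

/-- `F k` splits the part `R` properly. -/
def Proper (R : Set E) (k : ℕ) : Prop := (R ∩ F k).Nonempty ∧ (R \ F k).Nonempty

theorem mem_st1 (h : History E) (x : E) (hx : x ∈ current h) :
    ∃ b, x ∈ (st1 σ h b).chosen := by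
  have h1 := (σ.split_legal h).1
  rw [← h1] at hx
  rcases hx with hx | hx
  · exact ⟨true, by simpa [st1, Stage.chosen] using hx⟩
  · exact ⟨false, by simpa [st1, Stage.chosen] using hx⟩

/-- A point that can never be stuck is kept forever in some play. -/
theorem survive (x : E)
    (H : ∀ l : List (Bool × ℕ), x ∈ current (hist σ F l) →
      ∃ b k, Proper F (st1 σ (hist σ F l) b).chosen k ∧ x ∈ current (hist σ F ((b, k) :: l))) :
    ∃ f : Run E, IsPlay f ∧ Follows σ f ∧
      (∀ n, Odd n → (f n).left.Nonempty ∧ (f n).right.Nonempty) ∧ ∀ n, x ∈ setAt f n := by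
  classical
  choose! b k hP hx using H
  let g : ℕ → List (Bool × ℕ) := fun n => Nat.rec [] (fun _ l => (b l, k l) :: l) n
  have g0 : g 0 = [] := rfl
  have gs : ∀ n, g (n + 1) = (b (g n), k (g n)) :: g n := fun n => rfl
  have alive : ∀ n, x ∈ current (hist σ F (g n)) := by
    intro n
    induction n with
    | zero => rw [g0]; simp [hist, current]
    | succ n ih => rw [gs]; exact hx _ ih
  let f : Run E := fun n =>
    if n % 2 = 0 then st1 σ (hist σ F (g (n / 2))) (b (g (n / 2)))
    else st2 σ F (hist σ F (g (n / 2))) (b (g (n / 2))) (k (g (n / 2)))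
  have fe : ∀ j, f (2 * j) = st1 σ (hist σ F (g j)) (b (g j)) := by
    intro j
    have h1 : (2 * j) % 2 = 0 := by omega
    have h2 : (2 * j) / 2 = j := by omega
    simp only [f, h1, h2, if_true]
  have fo : ∀ j, f (2 * j + 1) = st2 σ F (hist σ F (g j)) (b (g j)) (k (g j)) := by
    intro j
    have h1 : ¬ (2 * j + 1) % 2 = 0 := by omega
    have h2 : (2 * j + 1) / 2 = j := by omega
    simp only [f, h1, h2, if_false]
  have ue : ∀ j, upTo f (2 * j) = hist σ F (g j) := by
    intro j
    induction j with
    | zero => rw [g0]; simp [upTo, hist]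
    | succ j ih =>
      have h1 : 2 * (j + 1) = 2 * j + 1 + 1 := by ring
      rw [h1, upTo, upTo, ih, fo, fe, gs, hist]
  have uo : ∀ j, upTo f (2 * j + 1) = st1 σ (hist σ F (g j)) (b (g j)) :: hist σ F (g j) := by
    intro j
    rw [upTo, ue, fe]
  have mem1 : ∀ j, x ∈ (st1 σ (hist σ F (g j)) (b (g j))).chosen := by
    intro j
    have h1 := alive (j + 1)
    rw [gs] at h1
    simp only [hist, current, Stage.chosen, st2] at h1
    by_cases hc : (σ.choose (st1 σ (hist σ F (g j)) (b (g j)) :: hist σ F (g j))
        ((if (st1 σ (hist σ F (g j)) (b (g j))).pick = true then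
          (st1 σ (hist σ F (g j)) (b (g j))).left else
          (st1 σ (hist σ F (g j)) (b (g j))).right) ∩ F (k (g j)))
        ((if (st1 σ (hist σ F (g j)) (b (g j))).pick = true then
          (st1 σ (hist σ F (g j)) (b (g j))).left else
          (st1 σ (hist σ F (g j)) (b (g j))).right) \ F (k (g j)))) = true
    · rw [if_pos hc] at h1
      exact h1.1
    · rw [if_neg hc] at h1
      exact h1.1
  refine ⟨f, ?_, ⟨?_, ?_⟩, ?_, ?_⟩
  · intro n
    rcases Nat.even_or_odd' n with ⟨j, rfl | rfl⟩
    · rw [setAt, ue, fe]
      exact σ.split_legal _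
    · rw [setAt, uo, fo]
      refine ⟨?_, ?_⟩
      · simp only [st2, current]
        exact Set.inter_union_sdiff _ _
      · simp only [st2]
        exact Set.disjoint_left.2 fun y hy hy' => hy'.2 hy.2
  · intro n hn
    obtain ⟨j, rfl⟩ := even_iff_exists_two_mul.1 hn
    rw [ue, fe]
    rfl
  · intro n hn
    obtain ⟨j, rfl⟩ := hn
    rw [uo, fo]
    rfl
  · intro n hn
    obtain ⟨j, rfl⟩ := hn
    rw [fo]
    exact hP _ (alive j)
  · intro n
    rcases Nat.even_or_odd' n with ⟨j, rfl | rfl⟩
    · rw [setAt, ue]; exact alive j
    · rw [setAt, uo]; exact mem1 j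

end lower

/-- For every strategy of A, all but countably many points can be kept by B, with B's splits all
into two nonempty parts. -/
theorem lower {E : Type u} (σ : StrategyA E) :
    {x : E | ¬ ∃ f : Run E, IsPlay f ∧ Follows σ f ∧
      (∀ n, Odd n → (f n).left.Nonempty ∧ (f n).right.Nonempty) ∧
      ∀ n, x ∈ setAt f n}.Countable := by
  classical
  set D : Set E := {x : E | ¬ ∃ f : Run E, IsPlay f ∧ Follows σ f ∧
      (∀ n, Odd n → (f n).left.Nonempty ∧ (f n).right.Nonempty) ∧
      ∀ n, x ∈ setAt f n} with hD
  by_contra hunc
  have h1 : Cardinal.aleph 1 ≤ Cardinal.mk D := by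
    rw [← Cardinal.succ_aleph0] 
    rw [Order.succ_le_iff]
    by_contra hle
    rw [not_lt] at hle
    exact hunc (Cardinal.le_aleph0_iff_set_countable.1 hle)
  obtain ⟨E', hE'D, hE'⟩ := Cardinal.le_mk_iff_exists_subset.1 h1
  have h2 : Cardinal.lift.{0} (Cardinal.mk E') ≤ Cardinal.lift.{u} (Cardinal.mk (ℕ → Bool)) := by
    rw [hE']
    have h3 : Cardinal.mk (ℕ → Bool) = Cardinal.continuum := by
      simp
    rw [h3]
    simpa using Cardinal.aleph_one_le_continuum
  obtain ⟨φ⟩ := Cardinal.lift_mk_le'.1 h2
  let F : ℕ → Set E := fun k => {x | ∃ h : x ∈ E', φ ⟨x, h⟩ k = true}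
  have key : ∀ x : E', ∃ c : List (Bool × ℕ) × Bool,
      (x : E) ∈ (st1 σ (hist σ F c.1) c.2).chosen ∧
      ∀ k, Proper F (st1 σ (hist σ F c.1) c.2).chosen k →
        (x : E) ∉ current (hist σ F ((c.2, k) :: c.1)) := by
    intro x
    by_contra hno
    push Not at hno
    apply hE'D x.2
    apply survive σ F
    intro l hl
    obtain ⟨b, hb⟩ := mem_st1 σ _ _ hl
    obtain ⟨k, hk1, hk2⟩ := hno (l, b) hb
    exact ⟨b, k, hk1, hk2⟩
  choose c hc1 hc2 using key
  have hinj : Function.Injective c := by
    intro x y hxy
    by_contra hne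
    have h3 : φ x ≠ φ y := fun h => hne (φ.injective h)
    obtain ⟨k, hk⟩ := Function.ne_iff.1 h3
    have memF : ∀ z : E', ((z : E) ∈ F k ↔ φ z k = true) := by
      intro z
      constructor
      · rintro ⟨h, h'⟩
        exact h'
      · intro h
        exact ⟨z.2, h⟩
    have hx1 := hc1 x
    have hx2 := hc2 x k
    have hy1 := hc1 y
    have hy2 := hc2 y k
    rw [← hxy] at hy1 hy2
    set l := (c x).1
    set b := (c x).2
    have hcases : ((x : E) ∈ F k ∧ (y : E) ∉ F k) ∨ ((y : E) ∈ F k ∧ (x : E) ∉ F k) := by
      rw [memF, memF]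
      rcases hbx : φ x k with _ | _ <;> rcases hby : φ y k with _ | _
      · exact absurd (hbx.trans hby.symm) hk
      · right; simp
      · left; simp
      · exact absurd (hbx.trans hby.symm) hk
    have hprop : Proper F (st1 σ (hist σ F l) b).chosen k := by
      rcases hcases with ⟨h4, h5⟩ | ⟨h4, h5⟩
      · exact ⟨⟨x, hx1, h4⟩, ⟨y, hy1, h5⟩⟩
      · exact ⟨⟨y, hy1, h4⟩, ⟨x, hx1, h5⟩⟩
    have hx3 := hx2 hprop
    have hy3 := hy2 hprop
    have hcur : current (hist σ F ((b, k) :: l)) = (st1 σ (hist σ F l) b).chosen ∩ F k ∨
        current (hist σ F ((b, k) :: l)) = (st1 σ (hist σ F l) b).chosen \ F k := by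
      simp only [hist, current]
      rw [Stage.chosen]
      by_cases hp : (st2 σ F (hist σ F l) b k).pick = true
      · left; rw [if_pos hp]; rfl
      · right; rw [if_neg hp]; rfl
    rcases hcur with h6 | h6 <;> rw [h6] at hx3 hy3
    · rcases hcases with ⟨h4, h5⟩ | ⟨h4, h5⟩
      · exact hx3 ⟨hx1, h4⟩
      · exact hy3 ⟨hy1, h4⟩
    · rcases hcases with ⟨h4, h5⟩ | ⟨h4, h5⟩
      · exact hy3 ⟨hy1, h5⟩
      · exact hx3 ⟨hx1, h5⟩
  have hcount : Countable E' := hinj.countable
  have h7 : Cardinal.mk E' ≤ Cardinal.aleph0 := Cardinal.mk_le_aleph0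
  rw [hE'] at h7
  exact absurd h7 (not_le.2 Cardinal.aleph0_lt_aleph_one)

/-- On a countable set A wins. -/
theorem upper {E : Type u} [Countable E] : ∃ σ : StrategyA E, σ.Winning := by
  classical
  obtain ⟨e, he⟩ := exists_injective_nat E
  refine ⟨⟨fun h => (current h, ∅), fun h => ⟨by simp, by simp⟩,
    fun h L _ => decide (¬ ∃ p ∈ L, 2 * e p + 1 = h.length)⟩, ?_⟩
  intro f hplay hfol
  rw [WinsA, Set.eq_empty_iff_forall_notMem]
  intro x hx
  rw [Set.mem_iInter] at hx
  have hlen : ∀ n, (upTo f n).length = n := by
    intro n
    induction n with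
    | zero => rfl
    | succ n ih => simp [upTo, ih]
  have h1 := hx (2 * e x + 1)
  have h2 := hfol.2 (2 * e x + 1) ⟨e x, rfl⟩
  have h3 := (hplay (2 * e x + 1)).2
  simp only [hlen] at h2
  simp only [setAt, upTo, current, Stage.chosen] at h1
  by_cases hp : (f (2 * e x + 1)).pick = true
  · rw [if_pos hp] at h1
    rw [hp] at h2
    have h4 := of_decide_eq_true h2.symm
    exact h4 ⟨x, h1, rfl⟩
  · rw [if_neg hp] at h1
    have hp' : (f (2 * e x + 1)).pick = false := by simpa using hp
    rw [hp'] at h2
    have h4 := of_decide_eq_false h2.symm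
    push Not at h4
    obtain ⟨p, hp1, hp2⟩ := h4
    have h5 : e p = e x := by omega
    have h6 := he h5
    subst h6
    exact Set.disjoint_left.1 h3 hp1 h1

/-- **Main theorem.**  Player A has a winning strategy in the splitting game on `E` if and only if
`E` is countable.  Moreover, for every strategy `σ` of A, all but countably many points `x` of `E`
belong to all the sets `S_n` of some play in which A follows `σ` and in which, besides, all the
splits made by B are into two nonempty parts. -/
theorem result (E : Type u) :
    ((∃ σ : StrategyA E, σ.Winning) ↔ Countable E) ∧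
    (∀ σ : StrategyA E,
      {x : E | ¬ ∃ f : Run E, IsPlay f ∧ Follows σ f ∧
        (∀ n, Odd n → (f n).left.Nonempty ∧ (f n).right.Nonempty) ∧
        ∀ n, x ∈ setAt f n}.Countable) := by
  refine ⟨⟨?_, ?_⟩, fun σ => lower σ⟩
  · rintro ⟨σ, hσ⟩
    have h1 := lower σ
    rw [← Set.countable_univ_iff]
    refine h1.mono ?_
    intro x _ hx
    obtain ⟨f, hf1, hf2, _, hf4⟩ := hx
    have h2 := hσ f hf1 hf2
    rw [WinsA, Set.eq_empty_iff_forall_notMem] at h2
    exact h2 x (Set.mem_iInter.2 fun n => hf4 (n + 1))
  · intro h
    exact upper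

end Pool.Agent.Results.MP_053b7f_lc.SplitGame
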